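import Pool.Agent.helper20.Sz.Sys
import Pool.Agent.helper70.Sz.R1
import Pool.Agent.helper44.Sz.L1

/-!
# T1: homology of the torus (the vertex complex of the bar complex)
-/

open scoped symmDiff

namespace Pool.Agent.helper20.Sz

set_option linter.unusedSectionVars false

namespace T1
variable {X E : Type} [DecidableEq X] [Fintype E] [DecidableEq E] {K : Cube X E}

/-- the boundary: sum over all refinements of a word by one cut -/
def bd (y : Finset (Finset E) → ZMod 2) (𝒟 : Finset (Finset E)) : ZMod 2 :=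
  ∑ D ∈ Finset.univ.filter (fun D => D ∉ 𝒟), y (insert D 𝒟)

/-- supported on valid words -/
def VS (K : Cube X E) (v : Finset X) (y : Finset (Finset E) → ZMod 2) : Prop :=
  ∀ 𝒟, y 𝒟 ≠ 0 → K.Valid v 𝒟

/-- rotation invariant -/
def RI (K : Cube X E) (v : Finset X) (y : Finset (Finset E) → ZMod 2) : Prop :=
  ∀ 𝒟 D, K.Valid v 𝒟 → D ∈ 𝒟 → y (rho D 𝒟) = y 𝒟

/-- the block of `P` -/
def Pb (P : E) (𝒟 : Finset (Finset E)) : Finset E :=
  Finset.univ.filter fun x => ∀ D ∈ 𝒟, (x ∈ D ↔ P ∈ D)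

theorem mem_Pb {P x : E} {𝒟 : Finset (Finset E)} : x ∈ Pb P 𝒟 ↔ ∀ D ∈ 𝒟, (x ∈ D ↔ P ∈ D) := by
  simp [Pb]

theorem valid_sub {v : Finset X} {𝒟 𝒟' : Finset (Finset E)} (h : K.Valid v 𝒟') (hs : 𝒟 ⊆ 𝒟') :
    K.Valid v 𝒟 :=
  ⟨fun D hD => h.ne D (hs hD), fun D hD => h.top D (hs hD), fun D hD => h.sat D (hs hD),
    fun D hD D' hD' => h.chain D (hs hD) D' (hs hD')⟩

theorem bd_add (y y' : Finset (Finset E) → ZMod 2) (𝒟 : Finset (Finset E)) :
    bd (fun 𝒟 => y 𝒟 + y' 𝒟) 𝒟 = bd y 𝒟 + bd y' 𝒟 := by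
  unfold bd; rw [Finset.sum_add_distrib]

theorem z2_add_self (a : ZMod 2) : a + a = 0 := by
  revert a; decide

theorem bd_bd (y : Finset (Finset E) → ZMod 2) (𝒟 : Finset (Finset E)) : bd (bd y) 𝒟 = 0 := by
  unfold bd
  have h1 : ∑ D ∈ Finset.univ.filter (fun D => D ∉ 𝒟),
      ∑ D' ∈ Finset.univ.filter (fun D' => D' ∉ insert D 𝒟), y (insert D' (insert D 𝒟)) =
      ∑ p ∈ (Finset.univ : Finset (Finset E × Finset E)).filter
        (fun p => p.1 ∉ 𝒟 ∧ p.2 ∉ 𝒟 ∧ p.1 ≠ p.2), y (insert p.2 (insert p.1 𝒟)) := by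
    rw [Finset.sum_sigma']
    refine Finset.sum_bij' (fun p _ => (p.1, p.2)) (fun p _ => ⟨p.1, p.2⟩) ?_ ?_ ?_ ?_ ?_
    · intro p hp
      simp only [Finset.mem_sigma, Finset.mem_filter, Finset.mem_univ, true_and,
        Finset.mem_insert, not_or] at hp ⊢
      exact ⟨hp.1, hp.2.2, fun h => hp.2.1 h.symm⟩
    · intro p hp
      simp only [Finset.mem_sigma, Finset.mem_filter, Finset.mem_univ, true_and,
        Finset.mem_insert, not_or] at hp ⊢
      exact ⟨hp.1, fun h => hp.2.2 h.symm, hp.2.1⟩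
    · intro p _; rfl
    · intro p _; rfl
    · intro p _; rfl
  rw [h1]
  refine Finset.sum_involution (fun p _ => (p.2, p.1)) ?_ ?_ ?_ ?_
  · intro p _
    simp only
    rw [Finset.insert_comm p.1 p.2]
    exact z2_add_self _
  · intro p hp _ h
    simp only [Finset.mem_filter, Finset.mem_univ, true_and] at hp
    exact hp.2.2 (congrArg Prod.snd h)
  · intro p hp
    simp only [Finset.mem_filter, Finset.mem_univ, true_and] at hp ⊢
    exact ⟨hp.2.1, hp.1, hp.2.2.symm⟩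
  · intro p _; rfl

theorem bd_VS {v : Finset X} {y : Finset (Finset E) → ZMod 2} (h : VS K v y) : VS K v (bd y) := by
  intro 𝒟 hne
  obtain ⟨D, -, hD⟩ := Finset.exists_ne_zero_of_sum_ne_zero hne
  exact valid_sub (h _ hD) (Finset.subset_insert _ _)

theorem bd_eq_valid {v : Finset X} {y : Finset (Finset E) → ZMod 2} (h : VS K v y)
    (𝒟 : Finset (Finset E)) [DecidablePred fun D : Finset E => D ∉ 𝒟 ∧ K.Valid v (insert D 𝒟)] :
    bd y 𝒟 = ∑ D ∈ Finset.univ.filter (fun D : Finset E => D ∉ 𝒟 ∧ K.Valid v (insert D 𝒟)),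
      y (insert D 𝒟) := by
  unfold bd
  symm
  refine Finset.sum_subset_zero_on_sdiff ?_ ?_ (fun _ _ => rfl)
  · intro D hD
    simp only [Finset.mem_filter, Finset.mem_univ, true_and] at hD ⊢
    exact hD.1
  · intro D hD
    simp only [Finset.mem_sdiff, Finset.mem_filter, Finset.mem_univ, true_and, not_and] at hD
    by_contra hne
    exact hD.2 hD.1 (h _ hne)

theorem rr_rr {D D' : Finset E} (h : D ⊆ D' ∨ D' ⊆ D) (hne : D' ≠ Finset.univ) :
    rr Dᶜ (rr D D') = D' := by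
  by_cases hs : D ⊆ D'
  · have e1 : rr D D' = D' \ D := if_pos hs
    have e2 : ¬ Dᶜ ⊆ D' \ D := by
      intro h1
      apply hne
      rw [Finset.eq_univ_iff_forall]
      intro x
      by_cases hx : x ∈ D
      · exact hs hx
      · exact (Finset.mem_sdiff.1 (h1 (Finset.mem_compl.2 hx))).1
    rw [e1, rr, if_neg e2, compl_compl]
    exact Finset.sdiff_union_of_subset hs
  · have hs' : D' ⊆ D := h.resolve_left hs
    have e1 : rr D D' = D' ∪ Dᶜ := if_neg hs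
    rw [e1, rr, if_pos Finset.subset_union_right]
    ext x
    simp only [Finset.mem_sdiff, Finset.mem_union, Finset.mem_compl, not_not]
    constructor
    · rintro ⟨h1 | h1, h2⟩
      · exact h1
      · exact absurd h2 h1
    · intro h1
      exact ⟨Or.inl h1, hs' h1⟩

theorem rho_insert_facts {v : Finset X} {𝒟 : Finset (Finset E)} {D D' : Finset E}
    (hv : K.Valid v (insert D' 𝒟)) (hD : D ∈ 𝒟) (hne : D' ∉ 𝒟) :
    rr D D' ∉ rho D 𝒟 ∧ K.Valid v (insert (rr D D') (rho D 𝒟)) ∧ rr Dᶜ (rr D D') = D' := by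
  obtain ⟨h1, h2⟩ := R1.rho_insert hv hD hne
  refine ⟨h2, ?_, ?_⟩
  · rw [← h1]
    exact R1.valid_rho hv (Finset.mem_insert_of_mem hD)
  · exact rr_rr (hv.chain D (Finset.mem_insert_of_mem hD) D' (Finset.mem_insert_self _ _))
      (hv.top D' (Finset.mem_insert_self _ _))

theorem bd_RI {v : Finset X} {y : Finset (Finset E) → ZMod 2} (h : VS K v y) (h' : RI K v y) :
    RI K v (bd y) := by
  classical
  intro 𝒟 D hv hD
  have hv' := R1.valid_rho hv hD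
  rw [bd_eq_valid h, bd_eq_valid h]
  obtain ⟨hc1, hc2⟩ := R1.rho_compl hv hD
  have hback : ∀ D'' : Finset E, D'' ∉ rho D 𝒟 → K.Valid v (insert D'' (rho D 𝒟)) →
      rr Dᶜ D'' ∉ 𝒟 ∧ K.Valid v (insert (rr Dᶜ D'') 𝒟) ∧ rr D (rr Dᶜ D'') = D'' := by
    intro D'' h1 h2
    have h3 := rho_insert_facts h2 hc1 h1
    rw [hc2, compl_compl] at h3
    exact h3
  refine Finset.sum_bij' (fun D'' _ => rr Dᶜ D'') (fun D' _ => rr D D') ?_ ?_ ?_ ?_ ?_
  · intro D'' h1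
    simp only [Finset.mem_filter, Finset.mem_univ, true_and] at h1 ⊢
    exact ⟨(hback D'' h1.1 h1.2).1, (hback D'' h1.1 h1.2).2.1⟩
  · intro D' h1
    simp only [Finset.mem_filter, Finset.mem_univ, true_and] at h1 ⊢
    have := rho_insert_facts h1.2 hD h1.1
    exact ⟨this.1, this.2.1⟩
  · intro D'' h1
    simp only [Finset.mem_filter, Finset.mem_univ, true_and] at h1
    exact (hback D'' h1.1 h1.2).2.2
  · intro D' h1
    simp only [Finset.mem_filter, Finset.mem_univ, true_and] at h1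
    exact (rho_insert_facts h1.2 hD h1.1).2.2
  · intro D'' h1
    simp only [Finset.mem_filter, Finset.mem_univ, true_and] at h1
    obtain ⟨h2, h3, h4⟩ := hback D'' h1.1 h1.2
    have h5 := (R1.rho_insert h3 hD h2).1
    rw [h4] at h5
    rw [← h5]
    exact h' _ _ h3 (Finset.mem_insert_of_mem hD)

theorem pe_rho {v : Finset X} {𝒟 : Finset (Finset E)} (hv : K.Valid v 𝒟) {D : Finset E}
    (hD : D ∈ 𝒟) (x y : E) :
    (∀ D' ∈ rho D 𝒟, (x ∈ D' ↔ y ∈ D')) ↔ ∀ D' ∈ 𝒟, (x ∈ D' ↔ y ∈ D') := by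
  unfold rho
  constructor
  · intro h D' hD'
    have h1 := h Dᶜ (Finset.mem_insert_self _ _)
    simp only [Finset.mem_compl, not_iff_not] at h1
    by_cases hne : D' = D
    · rw [hne]; exact h1
    have h2 := h (rr D D') (Finset.mem_insert_of_mem (Finset.mem_image_of_mem _
      (Finset.mem_erase.2 ⟨hne, hD'⟩)))
    unfold rr at h2
    by_cases hsub : D ⊆ D'
    · rw [if_pos hsub] at h2
      simp only [Finset.mem_sdiff] at h2
      have hx : x ∈ D → x ∈ D' := fun h => hsub h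
      have hy : y ∈ D → y ∈ D' := fun h => hsub h
      tauto
    · rw [if_neg hsub] at h2
      simp only [Finset.mem_union, Finset.mem_compl] at h2
      have hs' : D' ⊆ D := (hv.chain D hD D' hD').resolve_left hsub
      have hx : x ∈ D' → x ∈ D := fun h => hs' h
      have hy : y ∈ D' → y ∈ D := fun h => hs' h
      tauto
  · intro h D' hD'
    rw [Finset.mem_insert] at hD'
    have h1 := h D hD
    rcases hD' with rfl | hD'
    · simp only [Finset.mem_compl, not_iff_not]; exact h1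
    · obtain ⟨D'', hD'', rfl⟩ := Finset.mem_image.1 hD'
      have h2 := h D'' (Finset.mem_erase.1 hD'').2
      unfold rr
      split_ifs
      · simp only [Finset.mem_sdiff]; rw [h1, h2]
      · simp only [Finset.mem_union, Finset.mem_compl]; rw [h1, h2]

theorem Xi_iff (P : E) (v : Finset X) (s : E → Bool) (𝒟 : Finset (Finset E)) :
    K.Xi P v s v 𝒟 ↔ K.Valid v 𝒟 ∧ (∀ x, s x = false ↔ ∀ D ∈ 𝒟, (x ∈ D ↔ P ∈ D)) ∧
      (∀ x y, s x = true → (∀ D ∈ 𝒟, (x ∈ D ↔ y ∈ D)) → K.same v x y) := by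
  have key : ∀ 𝒟, K.Valid v 𝒟 → Nrm P 𝒟 → (K.Xi0 P v s v 𝒟 ↔
      (∀ x, s x = false ↔ ∀ D ∈ 𝒟, (x ∈ D ↔ P ∈ D)) ∧
      (∀ x y, s x = true → (∀ D ∈ 𝒟, (x ∈ D ↔ y ∈ D)) → K.same v x y)) := by
    intro 𝒟 hv hn
    have e : ∀ x, (∀ D ∈ 𝒟, (x ∈ D ↔ P ∈ D)) ↔ ∀ D ∈ 𝒟, x ∈ D := by
      intro x
      exact ⟨fun h D hD => (h D hD).2 (hn D hD), fun h D hD => ⟨fun _ => hn D hD, fun _ => h D hD⟩⟩
    constructor
    · intro h
      exact ⟨fun x => (h.first x).trans (e x).symm, h.single⟩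
    · rintro ⟨h1, h2⟩
      refine ⟨Finset.Subset.refl _, hv, hn, fun x => (h1 x).trans (e x), h2, ?_, ?_, ?_⟩
      · unfold Cube.Spl
        rw [Finset.sdiff_self, ← Finset.bot_eq_empty, symmDiff_bot]; simp
      · intro c hc; simp at hc
      · intro c hc; simp at hc
  unfold Cube.Xi
  constructor
  · rintro ⟨hv, h | ⟨D, hD, h⟩⟩
    · exact ⟨hv, (key 𝒟 hv h.nrm).1 h⟩
    · have h' := (key (rho D 𝒟) (R1.valid_rho hv hD) h.nrm).1 h
      simp only [pe_rho hv hD] at h'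
      exact ⟨hv, h'⟩
  · rintro ⟨hv, h⟩
    refine ⟨hv, ?_⟩
    by_cases hn : Nrm P 𝒟
    · exact Or.inl ((key 𝒟 hv hn).2 h)
    · obtain ⟨D, hD, hn'⟩ := R1.exists_nrm hv P hn
      refine Or.inr ⟨D, hD, (key _ (R1.valid_rho hv hD) hn').2 ?_⟩
      simp only [pe_rho hv hD]
      exact h


/-! ### the other cut of the same block -/

/-- the other cut of the block which is cut by `D` -/
def oc (𝒟 : Finset (Finset E)) (D : Finset E) : Finset E :=
  Finset.univ.filter fun x => (∃ D' ∈ 𝒟, D' ⊆ D ∧ x ∈ D') ∨ (x ∉ D ∧ ∀ D' ∈ 𝒟, D ⊆ D' → x ∈ D')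

theorem mem_oc {𝒟 : Finset (Finset E)} {D : Finset E} {x : E} : x ∈ oc 𝒟 D ↔
    (∃ D' ∈ 𝒟, D' ⊆ D ∧ x ∈ D') ∨ (x ∉ D ∧ ∀ D' ∈ 𝒟, D ⊆ D' → x ∈ D') := by
  simp [oc]

theorem exists_low {v : Finset X} {𝒟 : Finset (Finset E)} {D : Finset E}
    (hv : K.Valid v (insert D 𝒟)) (hD : D ∉ 𝒟) : ∃ a ∈ D, ∀ D' ∈ 𝒟, D' ⊆ D → a ∉ D' := by
  by_contra hcon
  push Not at hcon
  have hne : (𝒟.filter (fun D' => D' ⊆ D)).Nonempty := by
    obtain ⟨a, ha⟩ := hv.ne D (Finset.mem_insert_self _ _)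
    obtain ⟨D', h1, h2, -⟩ := hcon a ha
    exact ⟨D', Finset.mem_filter.2 ⟨h1, h2⟩⟩
  obtain ⟨M, hM, hmax⟩ := Finset.exists_max_image _ Finset.card hne
  obtain ⟨hM1, hM2⟩ := Finset.mem_filter.1 hM
  apply hD
  have : D = M := by
    refine Finset.Subset.antisymm (fun a ha => ?_) hM2
    obtain ⟨D', h1, h2, h3⟩ := hcon a ha
    have h4 := hmax D' (Finset.mem_filter.2 ⟨h1, h2⟩)
    rcases hv.chain D' (Finset.mem_insert_of_mem h1) M (Finset.mem_insert_of_mem hM1) with h | h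
    · exact h h3
    · rw [Finset.eq_of_subset_of_card_le h h4]; exact h3
  rw [this]; exact hM1

theorem exists_high {v : Finset X} {𝒟 : Finset (Finset E)} {D : Finset E}
    (hv : K.Valid v (insert D 𝒟)) (hD : D ∉ 𝒟) : ∃ b ∉ D, ∀ D' ∈ 𝒟, D ⊆ D' → b ∈ D' := by
  by_contra hcon
  push Not at hcon
  have hne : (𝒟.filter (fun D' => D ⊆ D')).Nonempty := by
    obtain ⟨b, hb⟩ : ∃ b, b ∉ D := by
      by_contra h
      push Not at h
      exact hv.top D (Finset.mem_insert_self _ _) (Finset.eq_univ_iff_forall.2 h)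
    obtain ⟨D', h1, h2, -⟩ := hcon b hb
    exact ⟨D', Finset.mem_filter.2 ⟨h1, h2⟩⟩
  obtain ⟨M, hM, hmin⟩ := Finset.exists_min_image _ Finset.card hne
  obtain ⟨hM1, hM2⟩ := Finset.mem_filter.1 hM
  apply hD
  have : D = M := by
    refine Finset.Subset.antisymm hM2 (fun a ha => ?_)
    by_contra hna
    obtain ⟨D', h1, h2, h3⟩ := hcon a hna
    have h4 := hmin D' (Finset.mem_filter.2 ⟨h1, h2⟩)
    rcases hv.chain D' (Finset.mem_insert_of_mem h1) M (Finset.mem_insert_of_mem hM1) with h | h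
    · rw [Finset.eq_of_subset_of_card_le h h4] at h3; exact h3 ha
    · exact h3 (h ha)
  rw [this]; exact hM1

section oc

variable {v : Finset X} {𝒟 : Finset (Finset E)} {D : Finset E}

theorem oc_comp (hv : K.Valid v (insert D 𝒟)) (hD : D ∉ 𝒟) {D' : Finset E} (hD' : D' ∈ 𝒟) :
    (D' ⊆ oc 𝒟 D ↔ D' ⊆ D) ∧ (oc 𝒟 D ⊆ D' ↔ D ⊆ D') := by
  obtain ⟨a, ha1, ha2⟩ := exists_low hv hD
  obtain ⟨b, hb1, hb2⟩ := exists_high hv hD
  have hch := hv.chain D' (Finset.mem_insert_of_mem hD') D (Finset.mem_insert_self _ _)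
  have h1 : D' ⊆ D → D' ⊆ oc 𝒟 D := fun h x hx => mem_oc.2 (Or.inl ⟨D', hD', h, hx⟩)
  have h2 : D ⊆ D' → oc 𝒟 D ⊆ D' := by
    intro h x hx
    rcases mem_oc.1 hx with ⟨D'', h3, h4, h5⟩ | ⟨-, h3⟩
    · exact h (h4 h5)
    · exact h3 D' hD' h
  have hao : a ∉ oc 𝒟 D := by
    intro h
    rcases mem_oc.1 h with ⟨D'', h3, h4, h5⟩ | ⟨h3, -⟩
    · exact ha2 D'' h3 h4 h5
    · exact h3 ha1
  have hbo : b ∈ oc 𝒟 D := mem_oc.2 (Or.inr ⟨hb1, hb2⟩)
  refine ⟨⟨fun h => ?_, h1⟩, fun h => ?_, h2⟩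
  · rcases hch with h3 | h3
    · exact h3
    · exact absurd (h (h3 ha1)) hao
  · rcases hch with h3 | h3
    · exact absurd (h3 (h hbo)) hb1
    · exact h3

theorem oc_notMem (hv : K.Valid v (insert D 𝒟)) (hD : D ∉ 𝒟) : oc 𝒟 D ∉ 𝒟 := by
  intro h
  obtain ⟨h1, h2⟩ := oc_comp hv hD h
  have h3 := h1.1 (Finset.Subset.refl _)
  have h4 := h2.1 (Finset.Subset.refl _)
  apply hD
  rw [Finset.Subset.antisymm h4 h3]
  exact h

theorem oc_oc (hv : K.Valid v (insert D 𝒟)) (hD : D ∉ 𝒟) : oc 𝒟 (oc 𝒟 D) = D := by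
  ext x
  rw [mem_oc]
  constructor
  · rintro (⟨D', h1, h2, h3⟩ | ⟨h1, h2⟩)
    · exact ((oc_comp hv hD h1).1.1 h2) h3
    · by_contra hx
      apply h1
      refine mem_oc.2 (Or.inr ⟨hx, fun D' hD' h3 => h2 D' hD' ((oc_comp hv hD hD').2.2 h3)⟩)
  · intro hx
    by_cases hl : ∃ D' ∈ 𝒟, D' ⊆ D ∧ x ∈ D'
    · obtain ⟨D', h1, h2, h3⟩ := hl
      exact Or.inl ⟨D', h1, (oc_comp hv hD h1).1.2 h2, h3⟩
    · refine Or.inr ⟨fun h => ?_, fun D' hD' h => ((oc_comp hv hD hD').2.1 h) hx⟩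
      rcases mem_oc.1 h with h1 | ⟨h1, -⟩
      · exact hl h1
      · exact h1 hx

theorem oc_ne (hv : K.Valid v (insert D 𝒟)) (hD : D ∉ 𝒟) : oc 𝒟 D ≠ D := by
  obtain ⟨b, hb1, hb2⟩ := exists_high hv hD
  intro h
  apply hb1
  rw [← h]
  exact mem_oc.2 (Or.inr ⟨hb1, hb2⟩)

theorem oc_valid (hv : K.Valid v (insert D 𝒟)) (hD : D ∉ 𝒟) :
    K.Valid v (insert (oc 𝒟 D) 𝒟) := by
  obtain ⟨a, ha1, ha2⟩ := exists_low hv hD
  obtain ⟨b, hb1, hb2⟩ := exists_high hv hD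
  have hv' := valid_sub hv (Finset.subset_insert D 𝒟)
  have hcmp : ∀ D' ∈ 𝒟, D' ⊆ oc 𝒟 D ∨ oc 𝒟 D ⊆ D' := by
    intro D' hD'
    rcases hv.chain D' (Finset.mem_insert_of_mem hD') D (Finset.mem_insert_self _ _) with h | h
    · exact Or.inl ((oc_comp hv hD hD').1.2 h)
    · exact Or.inr ((oc_comp hv hD hD').2.2 h)
  refine ⟨?_, ?_, ?_, ?_⟩
  · intro D' hD'
    rcases Finset.mem_insert.1 hD' with rfl | h
    · exact ⟨b, mem_oc.2 (Or.inr ⟨hb1, hb2⟩)⟩
    · exact hv'.ne D' h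
  · intro D' hD'
    rcases Finset.mem_insert.1 hD' with rfl | h
    · intro h
      have := Finset.eq_univ_iff_forall.1 h a
      rcases mem_oc.1 this with ⟨D'', h3, h4, h5⟩ | ⟨h3, -⟩
      · exact ha2 D'' h3 h4 h5
      · exact h3 ha1
    · exact hv'.top D' h
  · intro D' hD' x y hxy
    rcases Finset.mem_insert.1 hD' with rfl | h
    · rw [mem_oc, mem_oc]
      have h1 : x ∈ D ↔ y ∈ D := hv.sat D (Finset.mem_insert_self _ _) x y hxy
      have h2 : (∃ D' ∈ 𝒟, D' ⊆ D ∧ x ∈ D') ↔ ∃ D' ∈ 𝒟, D' ⊆ D ∧ y ∈ D' := by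
        constructor
        · rintro ⟨D', h3, h4, h5⟩; exact ⟨D', h3, h4, (hv'.sat D' h3 x y hxy).1 h5⟩
        · rintro ⟨D', h3, h4, h5⟩; exact ⟨D', h3, h4, (hv'.sat D' h3 x y hxy).2 h5⟩
      have h3 : (∀ D' ∈ 𝒟, D ⊆ D' → x ∈ D') ↔ ∀ D' ∈ 𝒟, D ⊆ D' → y ∈ D' := by
        constructor
        · intro h D' h3 h4; exact (hv'.sat D' h3 x y hxy).1 (h D' h3 h4)
        · intro h D' h3 h4; exact (hv'.sat D' h3 x y hxy).2 (h D' h3 h4)
      rw [h1, h2, h3]
    · exact hv'.sat D' h x y hxy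
  · intro D1 hD1 D2 hD2
    rcases Finset.mem_insert.1 hD1 with rfl | h1 <;> rcases Finset.mem_insert.1 hD2 with rfl | h2
    · exact Or.inl (Finset.Subset.refl _)
    · exact (hcmp D2 h2).symm
    · exact hcmp D1 h1
    · exact hv'.chain D1 h1 D2 h2

theorem oc_pe_aux {x y : E} (h : ∀ D' ∈ insert D 𝒟, (x ∈ D' ↔ y ∈ D')) :
    ∀ D' ∈ insert (oc 𝒟 D) 𝒟, (x ∈ D' ↔ y ∈ D') := by
  intro D' hD'
  rcases Finset.mem_insert.1 hD' with rfl | h0
  · rw [mem_oc, mem_oc]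
    have h1 : x ∈ D ↔ y ∈ D := h D (Finset.mem_insert_self _ _)
    have hs : ∀ D' ∈ 𝒟, (x ∈ D' ↔ y ∈ D') := fun D' hD' => h D' (Finset.mem_insert_of_mem hD')
    have h2 : (∃ D' ∈ 𝒟, D' ⊆ D ∧ x ∈ D') ↔ ∃ D' ∈ 𝒟, D' ⊆ D ∧ y ∈ D' := by
      constructor
      · rintro ⟨D', h3, h4, h5⟩; exact ⟨D', h3, h4, (hs D' h3).1 h5⟩
      · rintro ⟨D', h3, h4, h5⟩; exact ⟨D', h3, h4, (hs D' h3).2 h5⟩
    have h3 : (∀ D' ∈ 𝒟, D ⊆ D' → x ∈ D') ↔ ∀ D' ∈ 𝒟, D ⊆ D' → y ∈ D' := by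
      constructor
      · intro h D' h3 h4; exact (hs D' h3).1 (h D' h3 h4)
      · intro h D' h3 h4; exact (hs D' h3).2 (h D' h3 h4)
    rw [h1, h2, h3]
  · exact h D' (Finset.mem_insert_of_mem h0)

theorem oc_pe (hv : K.Valid v (insert D 𝒟)) (hD : D ∉ 𝒟) (x y : E) :
    (∀ D' ∈ insert (oc 𝒟 D) 𝒟, (x ∈ D' ↔ y ∈ D')) ↔ ∀ D' ∈ insert D 𝒟, (x ∈ D' ↔ y ∈ D') := by
  refine ⟨fun h => ?_, oc_pe_aux⟩
  have := oc_pe_aux h
  rwa [oc_oc hv hD] at this

end oc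

open Classical in
/-- linear combination of the cycles `Ξ` -/
noncomputable def xi (K : Cube X E) (P : E) (v : Finset X) (x : (E → Bool) → ZMod 2)
    (𝒟 : Finset (Finset E)) : ZMod 2 :=
  ∑ s : E → Bool, if K.Xi P v s v 𝒟 then x s else 0

theorem xi_VS (P : E) (v : Finset X) (x : (E → Bool) → ZMod 2) : VS K v (xi K P v x) := by
  classical
  intro 𝒟 h
  obtain ⟨s, -, hs⟩ := Finset.exists_ne_zero_of_sum_ne_zero h
  split_ifs at hs with h1
  · exact h1.1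
  · exact absurd rfl hs

theorem xi_RI (P : E) (v : Finset X) (x : (E → Bool) → ZMod 2) : RI K v (xi K P v x) := by
  classical
  intro 𝒟 D hv hD
  unfold xi
  refine Finset.sum_congr rfl (fun s _ => ?_)
  have : K.Xi P v s v (rho D 𝒟) ↔ K.Xi P v s v 𝒟 := by
    rw [Xi_iff, Xi_iff]
    simp only [pe_rho hv hD, hv, R1.valid_rho hv hD]
  simp only [this]

theorem xi_cycle (P : E) (v : Finset X) (x : (E → Bool) → ZMod 2) (𝒟 : Finset (Finset E)) :
    bd (xi K P v x) 𝒟 = 0 := by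
  classical
  rw [bd_eq_valid (xi_VS P v x)]
  refine Finset.sum_involution (fun D _ => oc 𝒟 D) ?_ ?_ ?_ ?_
  · intro D hD
    simp only [Finset.mem_filter, Finset.mem_univ, true_and] at hD
    have : xi K P v x (insert (oc 𝒟 D) 𝒟) = xi K P v x (insert D 𝒟) := by
      unfold xi
      refine Finset.sum_congr rfl (fun s _ => ?_)
      have : K.Xi P v s v (insert (oc 𝒟 D) 𝒟) ↔ K.Xi P v s v (insert D 𝒟) := by
        rw [Xi_iff, Xi_iff]
        simp only [oc_pe hD.2 hD.1, hD.2, oc_valid hD.2 hD.1]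
      simp only [this]
    rw [this]
    exact z2_add_self _
  · intro D hD _
    simp only [Finset.mem_filter, Finset.mem_univ, true_and] at hD
    exact oc_ne hD.2 hD.1
  · intro D hD
    simp only [Finset.mem_filter, Finset.mem_univ, true_and] at hD ⊢
    exact ⟨oc_notMem hD.2 hD.1, oc_valid hD.2 hD.1⟩
  · intro D hD
    simp only [Finset.mem_filter, Finset.mem_univ, true_and] at hD
    exact oc_oc hD.2 hD.1


/-! ### normal form -/

open Classical in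
/-- the normal rotation of a word -/
noncomputable def nf (P : E) (𝒟 : Finset (Finset E)) : Finset (Finset E) :=
  if h : ∃ D ∈ 𝒟, Nrm P (rho D 𝒟) then rho h.choose 𝒟 else 𝒟

theorem nf_of_nrm {P : E} {𝒟 : Finset (Finset E)} (h : Nrm P 𝒟) : nf P 𝒟 = 𝒟 := by
  unfold nf
  rw [dif_neg]
  rintro ⟨D, hD, h'⟩
  exact R1.not_nrm_rho P h hD h'

theorem nf_eq {v : Finset X} {𝒟 : Finset (Finset E)} (hv : K.Valid v 𝒟) {P : E} {D : Finset E}
    (hD : D ∈ 𝒟) (h : Nrm P (rho D 𝒟)) : nf P 𝒟 = rho D 𝒟 := by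
  have hex : ∃ D ∈ 𝒟, Nrm P (rho D 𝒟) := ⟨D, hD, h⟩
  unfold nf
  rw [dif_pos hex, R1.nrm_unique hv P hex.choose_spec.1 hD hex.choose_spec.2 h]

/-- the normal form is the word itself or a rotation of it -/
theorem nf_cases {v : Finset X} {𝒟 : Finset (Finset E)} (hv : K.Valid v 𝒟) (P : E) :
    Nrm P (nf P 𝒟) ∧ (nf P 𝒟 = 𝒟 ∨ ∃ D ∈ 𝒟, nf P 𝒟 = rho D 𝒟) := by
  by_cases hn : Nrm P 𝒟
  · rw [nf_of_nrm hn]; exact ⟨hn, Or.inl rfl⟩
  · obtain ⟨D, hD, h⟩ := R1.exists_nrm hv P hn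
    rw [nf_eq hv hD h]
    exact ⟨h, Or.inr ⟨D, hD, rfl⟩⟩

theorem nf_nrm {v : Finset X} {𝒟 : Finset (Finset E)} (hv : K.Valid v 𝒟) (P : E) :
    Nrm P (nf P 𝒟) := (nf_cases hv P).1

theorem nf_valid {v : Finset X} {𝒟 : Finset (Finset E)} (hv : K.Valid v 𝒟) (P : E) :
    K.Valid v (nf P 𝒟) := by
  rcases (nf_cases hv P).2 with h | ⟨D, hD, h⟩
  · rw [h]; exact hv
  · rw [h]; exact R1.valid_rho hv hD

theorem nf_card {v : Finset X} {𝒟 : Finset (Finset E)} (hv : K.Valid v 𝒟) (P : E) :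
    (nf P 𝒟).card = 𝒟.card := by
  rcases (nf_cases hv P).2 with h | ⟨D, hD, h⟩
  · rw [h]
  · rw [h]; exact R1.card_rho hv hD

theorem nf_Pb {v : Finset X} {𝒟 : Finset (Finset E)} (hv : K.Valid v 𝒟) (P : E) :
    Pb P (nf P 𝒟) = Pb P 𝒟 := by
  rcases (nf_cases hv P).2 with h | ⟨D, hD, h⟩
  · rw [h]
  · rw [h]; ext x; rw [mem_Pb, mem_Pb, pe_rho hv hD]

theorem RI_nf {v : Finset X} {y : Finset (Finset E) → ZMod 2} (h : RI K v y)
    {𝒟 : Finset (Finset E)} (hv : K.Valid v 𝒟) (P : E) : y (nf P 𝒟) = y 𝒟 := by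
  rcases (nf_cases hv P).2 with h' | ⟨D, hD, h'⟩
  · rw [h']
  · rw [h']; exact h 𝒟 D hv hD

theorem nf_rho {v : Finset X} {𝒟 : Finset (Finset E)} (hv : K.Valid v 𝒟) (P : E) {D : Finset E}
    (hD : D ∈ 𝒟) : nf P (rho D 𝒟) = nf P 𝒟 := by
  have hv' := R1.valid_rho hv hD
  obtain ⟨hc1, hc2⟩ := R1.rho_compl hv hD
  by_cases hn : Nrm P 𝒟
  · rw [nf_of_nrm hn, nf_eq hv' hc1 (by rw [hc2]; exact hn), hc2]
  · obtain ⟨D0, hD0, h0⟩ := R1.exists_nrm hv P hn
    rw [nf_eq hv hD0 h0]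
    by_cases hne : D0 = D
    · rw [← hne]; exact nf_of_nrm h0
    · obtain ⟨h1, h2⟩ := R1.rho_rr hv hD hD0 hne
      rw [nf_eq hv' h1 (by rw [h2]; exact h0), h2]

open Classical in
/-- rotation invariant extension of a function on normal words -/
noncomputable def extN (K : Cube X E) (P : E) (v : Finset X) (φ : Finset (Finset E) → ZMod 2)
    (𝒟 : Finset (Finset E)) : ZMod 2 := if K.Valid v 𝒟 then φ (nf P 𝒟) else 0

theorem extN_VS (P : E) (v : Finset X) (φ : Finset (Finset E) → ZMod 2) :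
    VS K v (extN K P v φ) := by
  intro 𝒟 h
  by_contra hv
  exact h (if_neg hv)

theorem extN_RI (P : E) (v : Finset X) (φ : Finset (Finset E) → ZMod 2) :
    RI K v (extN K P v φ) := by
  intro 𝒟 D hv hD
  unfold extN
  rw [if_pos hv, if_pos (R1.valid_rho hv hD), nf_rho hv P hD]

theorem extN_valid {P : E} {v : Finset X} {φ : Finset (Finset E) → ZMod 2}
    {𝒟 : Finset (Finset E)} (hv : K.Valid v 𝒟) : extN K P v φ 𝒟 = φ (nf P 𝒟) := if_pos hv

/-! ### the first block -/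

/-- a possible first block -/
structure GA (K : Cube X E) (v : Finset X) (P : E) (A : Finset E) : Prop where
  mem : P ∈ A
  top : A ≠ Finset.univ
  sat : ∀ x y, K.same v x y → (x ∈ A ↔ y ∈ A)

theorem Pb_insert (P : E) (D : Finset E) (𝒟 : Finset (Finset E)) :
    Pb P (insert D 𝒟) ⊆ Pb P 𝒟 := by
  intro x hx
  rw [mem_Pb] at hx ⊢
  exact fun D' hD' => hx D' (Finset.mem_insert_of_mem hD')

theorem Pb_empty (P : E) : Pb P (∅ : Finset (Finset E)) = Finset.univ := by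
  ext x; simp [mem_Pb]

theorem Pb_univ {v : Finset X} {𝒟 : Finset (Finset E)} (hv : K.Valid v 𝒟) {P : E}
    (h : Pb P 𝒟 = Finset.univ) : 𝒟 = ∅ := by
  rw [Finset.eq_empty_iff_forall_notMem]
  intro D hD
  have h1 : ∀ x, (x ∈ D ↔ P ∈ D) := fun x => by
    have : x ∈ Pb P 𝒟 := by rw [h]; exact Finset.mem_univ x
    exact mem_Pb.1 this D hD
  by_cases hP : P ∈ D
  · exact hv.top D hD (Finset.eq_univ_iff_forall.2 (fun x => (h1 x).2 hP))
  · obtain ⟨x, hx⟩ := hv.ne D hD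
    exact hP ((h1 x).1 hx)

theorem Pb_lt {v : Finset X} {𝒟 : Finset (Finset E)} (hv : K.Valid v 𝒟) {P : E}
    (h : 𝒟 ≠ ∅) : (Pb P 𝒟).card < Fintype.card E := by
  rw [← Finset.card_univ]
  refine Finset.card_lt_card (Finset.ssubset_univ_iff.2 (fun h' => h (Pb_univ hv h')))

theorem valid_of_flg {v : Finset X} {P : E} {A : Finset E} (hA : GA K v P A)
    {𝒟 : Finset (Finset E)} (h : Flg (K.same v) A Finset.univ 𝒟) :
    K.Valid v (insert A 𝒟) ∧ Nrm P (insert A 𝒟) ∧ Pb P (insert A 𝒟) = A ∧ A ∉ 𝒟 := by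
  have hnm : A ∉ 𝒟 := fun hA' => (h.low A hA').2 (Finset.Subset.refl _)
  have hnrm : Nrm P (insert A 𝒟) := by
    intro D hD
    rcases Finset.mem_insert.1 hD with rfl | h1
    · exact hA.mem
    · exact (h.low D h1).1 hA.mem
  refine ⟨⟨?_, ?_, ?_, ?_⟩, hnrm, ?_, hnm⟩
  · intro D hD
    exact ⟨P, hnrm D hD⟩
  · intro D hD
    rcases Finset.mem_insert.1 hD with rfl | h1
    · exact hA.top
    · exact (h.upp D h1).ne
  · intro D hD
    rcases Finset.mem_insert.1 hD with rfl | h1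
    · exact hA.sat
    · exact h.sat D h1
  · intro D1 hD1 D2 hD2
    rcases Finset.mem_insert.1 hD1 with rfl | h1 <;> rcases Finset.mem_insert.1 hD2 with rfl | h2
    · exact Or.inl (Finset.Subset.refl _)
    · exact Or.inl (h.low D2 h2).1
    · exact Or.inr (h.low D1 h1).1
    · exact h.chain D1 h1 D2 h2
  · ext x
    rw [mem_Pb]
    constructor
    · intro hx
      exact (hx A (Finset.mem_insert_self _ _)).2 hA.mem
    · intro hx D hD
      rcases Finset.mem_insert.1 hD with rfl | h1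
      · exact ⟨fun _ => hA.mem, fun _ => hx⟩
      · exact ⟨fun _ => (h.low D h1).1 hA.mem, fun _ => (h.low D h1).1 hx⟩

theorem flg_of_valid {v : Finset X} {P : E} {𝒟 : Finset (Finset E)} (hv : K.Valid v 𝒟)
    (hn : Nrm P 𝒟) (hne : 𝒟 ≠ ∅) : GA K v P (Pb P 𝒟) ∧ insert (Pb P 𝒟) (𝒟.erase (Pb P 𝒟)) = 𝒟 ∧
      Flg (K.same v) (Pb P 𝒟) Finset.univ (𝒟.erase (Pb P 𝒟)) := by
  obtain ⟨M, hM, hmin⟩ := Finset.exists_min_image 𝒟 Finset.card
    (Finset.nonempty_iff_ne_empty.2 hne)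
  have hMle : ∀ D ∈ 𝒟, M ⊆ D := by
    intro D hD
    rcases hv.chain M hM D hD with h | h
    · exact h
    · rw [Finset.eq_of_subset_of_card_le h (hmin D hD)]
  have hPb : Pb P 𝒟 = M := by
    ext x
    rw [mem_Pb]
    constructor
    · intro h; exact (h M hM).2 (hn M hM)
    · intro h D hD; exact ⟨fun _ => hn D hD, fun _ => hMle D hD h⟩
  rw [hPb]
  refine ⟨⟨hn M hM, hv.top M hM, hv.sat M hM⟩, Finset.insert_erase hM, ?_, ?_, ?_, ?_⟩
  · intro D hD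
    obtain ⟨h1, h2⟩ := Finset.mem_erase.1 hD
    exact Finset.ssubset_iff_subset_ne.2 ⟨hMle D h2, fun h => h1 h.symm⟩
  · intro D hD
    exact Finset.ssubset_univ_iff.2 (hv.top D (Finset.mem_erase.1 hD).2)
  · intro D hD
    exact hv.sat D (Finset.mem_erase.1 hD).2
  · intro D hD D' hD'
    exact hv.chain D (Finset.mem_erase.1 hD).2 D' (Finset.mem_erase.1 hD').2

/-- refinements which are not refinements of the flag cut the block of `P` -/
theorem Pb_cut {v : Finset X} {P : E} {A : Finset E} (hA : GA K v P A)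
    {𝒟 : Finset (Finset E)} (h : Flg (K.same v) A Finset.univ 𝒟) {D : Finset E}
    (hD : D ∉ insert A 𝒟) (hv : K.Valid v (insert D (insert A 𝒟)))
    (hnf : ¬ Flg (K.same v) A Finset.univ (insert D 𝒟)) :
    (Pb P (insert D (insert A 𝒟))).card < A.card := by
  obtain ⟨-, -, h3, -⟩ := valid_of_flg hA h
  have hDA : D ≠ A := fun h' => hD (by rw [h']; exact Finset.mem_insert_self _ _)
  have hnsub : ¬ A ⊆ D := by
    intro hAD
    apply hnf
    refine ⟨?_, ?_, ?_, ?_⟩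
    · intro D' hD'
      rcases Finset.mem_insert.1 hD' with rfl | h1
      · exact Finset.ssubset_iff_subset_ne.2 ⟨hAD, hDA.symm⟩
      · exact h.low D' h1
    · intro D' hD'
      rcases Finset.mem_insert.1 hD' with rfl | h1
      · exact Finset.ssubset_univ_iff.2 (hv.top D' (Finset.mem_insert_self _ _))
      · exact h.upp D' h1
    · intro D' hD'
      rcases Finset.mem_insert.1 hD' with rfl | h1
      · exact hv.sat D' (Finset.mem_insert_self _ _)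
      · exact h.sat D' h1
    · intro D1 hD1 D2 hD2
      have e : ∀ D' ∈ insert D 𝒟, D' ∈ insert D (insert A 𝒟) := by
        intro D' h'
        rcases Finset.mem_insert.1 h' with rfl | h1
        · exact Finset.mem_insert_self _ _
        · exact Finset.mem_insert_of_mem (Finset.mem_insert_of_mem h1)
      exact hv.chain D1 (e D1 hD1) D2 (e D2 hD2)
  have hsub : D ⊆ A := (hv.chain D (Finset.mem_insert_self _ _) A
    (Finset.mem_insert_of_mem (Finset.mem_insert_self _ _))).resolve_right hnsub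
  have hle : Pb P (insert D (insert A 𝒟)) ⊆ A := by
    have := Pb_insert P D (insert A 𝒟)
    rwa [h3] at this
  refine Finset.card_lt_card (Finset.ssubset_iff_subset_ne.2 ⟨hle, fun heq => ?_⟩)
  have h4 : ∀ x ∈ A, (x ∈ D ↔ P ∈ D) := by
    intro x hx
    rw [← heq] at hx
    exact mem_Pb.1 hx D (Finset.mem_insert_self _ _)
  by_cases hP : P ∈ D
  · exact hnsub (fun x hx => (h4 x hx).2 hP)
  · obtain ⟨x, hx⟩ := hv.ne D (Finset.mem_insert_self _ _)
    exact hP ((h4 x (hsub hx)).1 hx)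

theorem flg_sub {r : E → E → Prop} {A B : Finset E} {𝒟 𝒟' : Finset (Finset E)}
    (h : Flg r A B 𝒟') (hs : 𝒟 ⊆ 𝒟') : Flg r A B 𝒟 :=
  ⟨fun D hD => h.low D (hs hD), fun D hD => h.upp D (hs hD), fun D hD => h.sat D (hs hD),
    fun D hD D' hD' => h.chain D (hs hD) D' (hs hD')⟩

open Classical in
/-- the restriction of a function on words to the words with first block `A` -/
noncomputable def rs (K : Cube X E) (v : Finset X) (A : Finset E)
    (y : Finset (Finset E) → ZMod 2) (𝒟 : Finset (Finset E)) : ZMod 2 :=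
  if Flg (K.same v) A Finset.univ 𝒟 then y (insert A 𝒟) else 0

/-- the boundary at a word with first block `A`, if smaller blocks of `P` do not occur -/
theorem bd_rs {v : Finset X} {P : E} {A : Finset E} (hA : GA K v P A)
    {y : Finset (Finset E) → ZMod 2} (h1 : VS K v y)
    (h2 : ∀ 𝒟, y 𝒟 ≠ 0 → A.card ≤ (Pb P 𝒟).card) {𝒟 : Finset (Finset E)}
    (h : Flg (K.same v) A Finset.univ 𝒟) : bd y (insert A 𝒟) = bd (rs K v A y) 𝒟 := by
  unfold bd
  obtain ⟨-, -, -, hAn⟩ := valid_of_flg hA h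
  have hsub : Finset.univ.filter (fun D => D ∉ insert A 𝒟) ⊆
      Finset.univ.filter (fun D => D ∉ 𝒟) := by
    intro D hD
    simp only [Finset.mem_filter, Finset.mem_univ, true_and, Finset.mem_insert, not_or] at hD ⊢
    exact hD.2
  rw [← Finset.sum_subset hsub]
  · refine Finset.sum_congr rfl (fun D hD => ?_)
    simp only [Finset.mem_filter, Finset.mem_univ, true_and] at hD
    unfold rs
    split_ifs with hf
    · rw [Finset.insert_comm]
    · by_contra hne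
      have := h2 _ hne
      exact absurd (Pb_cut hA h hD (h1 _ hne) hf) (not_lt.2 this)
  · intro D hD1 hD2
    simp only [Finset.mem_filter, Finset.mem_univ, true_and, Finset.mem_insert, not_or,
      not_and, not_not] at hD1 hD2
    have hDA : D = A := by
      by_contra hne
      exact hD1 (hD2 hne)
    unfold rs
    rw [if_neg]
    intro hf
    exact (hf.low D (Finset.mem_insert_self _ _)).2 (by rw [hDA])

theorem Xi_flg {v : Finset X} {P : E} {A : Finset E} (hA : GA K v P A)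
    {𝒟 : Finset (Finset E)} (h : Flg (K.same v) A Finset.univ 𝒟) (s : E → Bool) :
    K.Xi P v s v (insert A 𝒟) ↔ s = (fun x => !decide (x ∈ A)) ∧
      FullFlg (K.same v) A Finset.univ 𝒟 := by
  obtain ⟨h1, h2, h3, h4⟩ := valid_of_flg hA h
  rw [Xi_iff]
  have e : ∀ x, (∀ D ∈ insert A 𝒟, (x ∈ D ↔ P ∈ D)) ↔ x ∈ A := by
    intro x; rw [← mem_Pb, h3]
  constructor
  · rintro ⟨-, h5, h6⟩
    have hs : ∀ x, s x = false ↔ x ∈ A := fun x => (h5 x).trans (e x)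
    refine ⟨?_, h, ?_⟩
    · funext x
      by_cases hx : x ∈ A
      · rw [(hs x).2 hx]; simp [hx]
      · have : s x ≠ false := fun h' => hx ((hs x).1 h')
        simp [hx, this]
    · intro x _ hx y _ hy hxy
      refine h6 x y ?_ ?_
      · have : s x ≠ false := fun h' => hx ((hs x).1 h')
        simpa using this
      · intro D hD
        rcases Finset.mem_insert.1 hD with rfl | hD'
        · exact ⟨fun h' => absurd h' hx, fun h' => absurd h' hy⟩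
        · exact hxy D hD'
  · rintro ⟨rfl, -, h6⟩
    refine ⟨h1, fun x => ?_, fun x y hx hxy => ?_⟩
    · rw [e x]; simp
    · have hx' : x ∉ A := by simpa using hx
      have hy' : y ∉ A := fun h' => hx' ((hxy A (Finset.mem_insert_self _ _)).2 h')
      exact h6 x (Finset.mem_univ _) hx' y (Finset.mem_univ _) hy'
        (fun D hD => hxy D (Finset.mem_insert_of_mem hD))

open Classical in
theorem xi_flg {v : Finset X} {P : E} {A : Finset E} (hA : GA K v P A)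
    {𝒟 : Finset (Finset E)} (h : Flg (K.same v) A Finset.univ 𝒟) (x : (E → Bool) → ZMod 2) :
    xi K P v x (insert A 𝒟) = if FullFlg (K.same v) A Finset.univ 𝒟 then
      x (fun x => !decide (x ∈ A)) else 0 := by
  unfold xi
  by_cases hf : FullFlg (K.same v) A Finset.univ 𝒟
  · rw [if_pos hf, Finset.sum_eq_single (fun x => !decide (x ∈ A))]
    · rw [if_pos ((Xi_flg hA h _).2 ⟨rfl, hf⟩)]
    · intro s _ hs
      rw [if_neg (fun h' => hs ((Xi_flg hA h _).1 h').1)]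
    · intro h'; exact absurd (Finset.mem_univ _) h'
  · rw [if_neg hf, Finset.sum_eq_zero]
    intro s _
    rw [if_neg (fun h' => hf ((Xi_flg hA h _).1 h').2)]

theorem Xi_empty (P : E) (v : Finset X) (s : E → Bool) :
    K.Xi P v s v ∅ ↔ s = fun _ => false := by
  rw [Xi_iff]
  constructor
  · rintro ⟨-, h, -⟩
    funext x
    rw [h x]; simp
  · rintro rfl
    refine ⟨⟨by simp, by simp, by simp, by simp⟩, by simp, by simp⟩

theorem xi_empty (P : E) (v : Finset X) (x : (E → Bool) → ZMod 2) :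
    xi K P v x ∅ = x (fun _ => false) := by
  classical
  unfold xi
  rw [Finset.sum_eq_single (fun _ => false)]
  · rw [if_pos ((Xi_empty P v _).2 rfl)]
  · intro s _ hs
    rw [if_neg (fun h' => hs ((Xi_empty P v s).1 h'))]
  · intro h'; exact absurd (Finset.mem_univ _) h'

/-- the set of points with label `x` -/
def SS (s : E → Bool) : Finset E := Finset.univ.filter fun x => s x = false

theorem mem_SS {s : E → Bool} {x : E} : x ∈ SS s ↔ s x = false := by simp [SS]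

theorem Xi_SS {P : E} {v : Finset X} {s : E → Bool} {𝒟 : Finset (Finset E)}
    (h : K.Xi P v s v 𝒟) : SS s = Pb P 𝒟 := by
  ext x
  rw [mem_SS, mem_Pb]
  exact ((Xi_iff P v s 𝒟).1 h).2.1 x

theorem s_eq (s : E → Bool) : s = fun x => !decide (x ∈ SS s) := by
  funext x
  cases h : s x <;> simp [mem_SS, h]

theorem xi_lt {P : E} {v : Finset X} {x : (E → Bool) → ZMod 2} {m : ℕ}
    (h : ∀ s, x s ≠ 0 → m ≤ (SS s).card) {𝒟 : Finset (Finset E)} (hm : (Pb P 𝒟).card < m) :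
    xi K P v x 𝒟 = 0 := by
  classical
  unfold xi
  refine Finset.sum_eq_zero (fun s _ => ?_)
  split_ifs with h1
  · by_contra h2
    have := h s h2
    rw [Xi_SS h1] at this
    omega
  · rfl

/-! ### full flags -/

theorem exists_full {v : Finset X} (hr : Equivalence (K.same v)) {P : E} {A : Finset E}
    (hA : GA K v P A) : ∃ 𝒟, FullFlg (K.same v) A Finset.univ 𝒟 := by
  classical
  have hne : ((Finset.univ : Finset (Finset (Finset E))).filter
      (fun 𝒟 => Flg (K.same v) A Finset.univ 𝒟)).Nonempty :=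
    ⟨∅, Finset.mem_filter.2 ⟨Finset.mem_univ _, by simp, by simp, by simp, by simp⟩⟩
  obtain ⟨𝒟, h𝒟, hmax⟩ := Finset.exists_max_image _ Finset.card hne
  have hf : Flg (K.same v) A Finset.univ 𝒟 := (Finset.mem_filter.1 h𝒟).2
  refine ⟨𝒟, hf, ?_⟩
  intro x _ hx y _ hy hxy
  by_contra hnr
  set D : Finset E := Finset.univ.filter (fun z => z ∈ A ∨ (∃ D' ∈ 𝒟, x ∉ D' ∧ z ∈ D') ∨
    K.same v z x) with hD
  have memD : ∀ z, z ∈ D ↔ z ∈ A ∨ (∃ D' ∈ 𝒟, x ∉ D' ∧ z ∈ D') ∨ K.same v z x := by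
    intro z; simp [hD]
  have hxD : x ∈ D := (memD x).2 (Or.inr (Or.inr (hr.refl x)))
  have hyD : y ∉ D := by
    intro h
    rcases (memD y).1 h with h1 | ⟨D', h1, h2, h3⟩ | h1
    · exact hy h1
    · exact h2 ((hxy D' h1).2 h3)
    · exact hnr (hr.symm h1)
  have hAD : A ⊂ D := by
    refine Finset.ssubset_iff_subset_ne.2 ⟨fun z hz => (memD z).2 (Or.inl hz), fun h => ?_⟩
    rw [← h] at hxD; exact hx hxD
  have hlow : ∀ D' ∈ 𝒟, x ∉ D' → D' ⊆ D := fun D' h1 h2 z hz =>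
    (memD z).2 (Or.inr (Or.inl ⟨D', h1, h2, hz⟩))
  have hhigh : ∀ D' ∈ 𝒟, x ∈ D' → D ⊆ D' := by
    intro D' h1 h2 z hz
    rcases (memD z).1 hz with h3 | ⟨D'', h3, h4, h5⟩ | h3
    · exact (hf.low D' h1).1 h3
    · rcases hf.chain D'' h3 D' h1 with h6 | h6
      · exact h6 h5
      · exact absurd (h6 h2) h4
    · exact (hf.sat D' h1 z x h3).2 h2
  have hcmp : ∀ D' ∈ 𝒟, D' ⊆ D ∨ D ⊆ D' := by
    intro D' h1
    by_cases h2 : x ∈ D'
    · exact Or.inr (hhigh D' h1 h2)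
    · exact Or.inl (hlow D' h1 h2)
  have hD𝒟 : D ∉ 𝒟 := fun h => hyD ((hxy D h).1 hxD)
  have hflg : Flg (K.same v) A Finset.univ (insert D 𝒟) := by
    refine ⟨?_, ?_, ?_, ?_⟩
    · intro D' hD'
      rcases Finset.mem_insert.1 hD' with rfl | h1
      · exact hAD
      · exact hf.low D' h1
    · intro D' hD'
      rcases Finset.mem_insert.1 hD' with rfl | h1
      · exact Finset.ssubset_univ_iff.2 (fun h => hyD (by rw [h]; exact Finset.mem_univ _))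
      · exact hf.upp D' h1
    · intro D' hD' p q hpq
      rcases Finset.mem_insert.1 hD' with rfl | h1
      · rw [memD, memD, hA.sat p q hpq]
        have e1 : (∃ D' ∈ 𝒟, x ∉ D' ∧ p ∈ D') ↔ ∃ D' ∈ 𝒟, x ∉ D' ∧ q ∈ D' := by
          constructor
          · rintro ⟨D', h3, h4, h5⟩; exact ⟨D', h3, h4, (hf.sat D' h3 p q hpq).1 h5⟩
          · rintro ⟨D', h3, h4, h5⟩; exact ⟨D', h3, h4, (hf.sat D' h3 p q hpq).2 h5⟩
        have e2 : K.same v p x ↔ K.same v q x :=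
          ⟨fun h => hr.trans (hr.symm hpq) h, fun h => hr.trans hpq h⟩
        rw [e1, e2]
      · exact hf.sat D' h1 p q hpq
    · intro D1 hD1 D2 hD2
      rcases Finset.mem_insert.1 hD1 with rfl | h1 <;> rcases Finset.mem_insert.1 hD2 with rfl | h2
      · exact Or.inl (Finset.Subset.refl _)
      · exact (hcmp D2 h2).symm
      · exact hcmp D1 h1
      · exact hf.chain D1 h1 D2 h2
  have := hmax (insert D 𝒟) (Finset.mem_filter.2 ⟨Finset.mem_univ _, hflg⟩)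
  rw [Finset.card_insert_of_notMem hD𝒟] at this
  omega

/-- full flags have no refinement -/
theorem full_no_ref {v : Finset X} {P : E} {A : Finset E} (hA : GA K v P A)
    {𝒟 : Finset (Finset E)} (h : FullFlg (K.same v) A Finset.univ 𝒟) {D : Finset E}
    (hD : D ∉ 𝒟) : ¬ Flg (K.same v) A Finset.univ (insert D 𝒟) := by
  intro hf
  obtain ⟨h1, -, -, h2⟩ := valid_of_flg hA hf
  have hDA : D ≠ A := fun h' => h2 (by rw [h']; exact Finset.mem_insert_self _ _)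
  rw [Finset.insert_comm] at h1
  have hDn : D ∉ insert A 𝒟 := by
    rw [Finset.mem_insert, not_or]; exact ⟨hDA, hD⟩
  obtain ⟨a, ha1, ha2⟩ := exists_low h1 hDn
  obtain ⟨b, hb1, hb2⟩ := exists_high h1 hDn
  have hAD : A ⊆ D := (hf.low D (Finset.mem_insert_self _ _)).1
  have haA : a ∉ A := ha2 A (Finset.mem_insert_self _ _) hAD
  have hbA : b ∉ A := fun h' => hb1 (hAD h')
  have hab : ∀ D' ∈ 𝒟, (a ∈ D' ↔ b ∈ D') := by
    intro D' hD'
    rcases hf.chain D' (Finset.mem_insert_of_mem hD') D (Finset.mem_insert_self _ _) with h3 | h3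
    · exact ⟨fun h' => absurd h' (ha2 D' (Finset.mem_insert_of_mem hD') h3),
        fun h' => absurd (h3 h') hb1⟩
    · exact ⟨fun _ => hb2 D' (Finset.mem_insert_of_mem hD') h3, fun _ => h3 ha1⟩
  have h4 := h.2 a (Finset.mem_univ _) haA b (Finset.mem_univ _) hbA hab
  exact hb1 ((hf.sat D (Finset.mem_insert_self _ _) a b h4).1 ha1)


/-! ### one step of the reduction -/

open Classical in
/-- inhomogeneous version of `L1.flags` -/
theorem flags' {v : Finset X} (hr : Equivalence (K.same v)) {P : E} {A : Finset E}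
    (hA : GA K v P A) (y : Finset (Finset E) → ZMod 2)
    (hy : ∀ 𝒟, y 𝒟 ≠ 0 → Flg (K.same v) A Finset.univ 𝒟)
    (hc : ∀ 𝒟, Flg (K.same v) A Finset.univ 𝒟 → bd y 𝒟 = 0) :
    ∃ (z : Finset (Finset E) → ZMod 2) (c : ZMod 2),
      (∀ 𝒟, z 𝒟 ≠ 0 → Flg (K.same v) A Finset.univ 𝒟 ∧ ∃ 𝒟₀, y 𝒟₀ ≠ 0 ∧
        𝒟.card = 𝒟₀.card + 1) ∧
      (c ≠ 0 → ∃ 𝒟₀, y 𝒟₀ ≠ 0 ∧ ∀ 𝒟, FullFlg (K.same v) A Finset.univ 𝒟 → 𝒟.card = 𝒟₀.card) ∧
      ∀ 𝒟, Flg (K.same v) A Finset.univ 𝒟 → y 𝒟 =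
        bd z 𝒟 + (if FullFlg (K.same v) A Finset.univ 𝒟 then c else 0) := by
  have step : ∀ k : ℕ, ∃ (z : Finset (Finset E) → ZMod 2) (c : ZMod 2),
      (∀ 𝒟, z 𝒟 ≠ 0 → Flg (K.same v) A Finset.univ 𝒟 ∧ 𝒟.card = k + 1 ∧
        ∃ 𝒟₀, y 𝒟₀ ≠ 0 ∧ 𝒟₀.card = k) ∧
      (c ≠ 0 → (∃ 𝒟₀, y 𝒟₀ ≠ 0 ∧ 𝒟₀.card = k) ∧
        ∀ 𝒟, FullFlg (K.same v) A Finset.univ 𝒟 → 𝒟.card = k) ∧
      ∀ 𝒟, Flg (K.same v) A Finset.univ 𝒟 → (if 𝒟.card = k then y 𝒟 else 0) =
        bd z 𝒟 + (if FullFlg (K.same v) A Finset.univ 𝒟 then c else 0) := by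
    intro k
    by_cases hex : ∃ 𝒟₀, y 𝒟₀ ≠ 0 ∧ 𝒟₀.card = k
    · obtain ⟨z, c, h1, h2, h3⟩ := L1.flags (K.same v) hr A Finset.univ
        (Finset.ssubset_univ_iff.2 hA.top) hA.sat (fun x y _ => by simp)
        (fun 𝒟 => if 𝒟.card = k then y 𝒟 else 0) k
        (fun 𝒟 h => by
          simp only [ne_eq, ite_eq_right_iff, Classical.not_imp] at h
          exact ⟨hy 𝒟 h.2, h.1⟩)
        (fun 𝒟 h𝒟 => by
          by_cases hk : 𝒟.card + 1 = k
          · rw [← hc 𝒟 h𝒟]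
            unfold bd
            refine Finset.sum_congr rfl (fun D hD => ?_)
            simp only [Finset.mem_filter, Finset.mem_univ, true_and] at hD
            rw [if_pos (by rw [Finset.card_insert_of_notMem hD]; exact hk)]
          · refine Finset.sum_eq_zero (fun D hD => ?_)
            simp only [Finset.mem_filter, Finset.mem_univ, true_and] at hD
            rw [if_neg (by rw [Finset.card_insert_of_notMem hD]; exact hk)])
      refine ⟨z, c, fun 𝒟 h => ⟨(h1 𝒟 h).1, (h1 𝒟 h).2, hex⟩, fun h => ⟨hex, h2 h⟩, h3⟩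
    · refine ⟨fun _ => 0, 0, fun 𝒟 h => absurd rfl h, fun h => absurd rfl h, fun 𝒟 h𝒟 => ?_⟩
      have h1 : (if 𝒟.card = k then y 𝒟 else 0) = 0 := by
        split_ifs with h2
        · by_contra h3
          exact hex ⟨𝒟, h3, h2⟩
        · rfl
      rw [h1]
      unfold bd
      simp
  choose z c h1 h2 h3 using step
  set n := Fintype.card (Finset E) with hn
  have hcard : ∀ 𝒟 : Finset (Finset E), 𝒟.card ∈ Finset.range (n + 1) := fun 𝒟 =>
    Finset.mem_range.2 (Nat.lt_succ_of_le (Finset.card_le_univ 𝒟))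
  refine ⟨fun 𝒟 => ∑ k ∈ Finset.range (n + 1), z k 𝒟, ∑ k ∈ Finset.range (n + 1), c k, ?_, ?_, ?_⟩
  · intro 𝒟 h
    obtain ⟨k, -, hk⟩ := Finset.exists_ne_zero_of_sum_ne_zero h
    obtain ⟨h4, h5, 𝒟₀, h6, h7⟩ := h1 k 𝒟 hk
    exact ⟨h4, 𝒟₀, h6, by rw [h5, h7]⟩
  · intro h
    obtain ⟨k, -, hk⟩ := Finset.exists_ne_zero_of_sum_ne_zero h
    obtain ⟨⟨𝒟₀, h6, h7⟩, h8⟩ := h2 k hk
    exact ⟨𝒟₀, h6, fun 𝒟 h𝒟 => by rw [h8 𝒟 h𝒟, h7]⟩
  · intro 𝒟 h𝒟
    have e1 : y 𝒟 = ∑ k ∈ Finset.range (n + 1), (if 𝒟.card = k then y 𝒟 else 0) := by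
      rw [Finset.sum_ite_eq, if_pos (hcard 𝒟)]
    rw [e1, Finset.sum_congr rfl (fun k _ => h3 k 𝒟 h𝒟), Finset.sum_add_distrib]
    congr 1
    · unfold bd
      rw [Finset.sum_comm]
    · split_ifs
      · rfl
      · simp

open Classical in
/-- one step: kill the part where the block of `P` has `m` points -/
theorem red {v : Finset X} (hr : Equivalence (K.same v)) (P : E) (m : ℕ)
    (ψ : Finset (Finset E) → ZMod 2) (h1 : VS K v ψ) (h2 : RI K v ψ)
    (h3 : ∀ 𝒟, ψ 𝒟 ≠ 0 → m ≤ (Pb P 𝒟).card)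
    (h4 : ∀ 𝒟, K.Valid v 𝒟 → (Pb P 𝒟).card ≤ m → bd ψ 𝒟 = 0) :
    ∃ (x : (E → Bool) → ZMod 2) (z : Finset (Finset E) → ZMod 2),
      (∀ s, x s ≠ 0 → (∀ p q, K.same v p q → s p = s q) ∧ s P = false ∧ (SS s).card = m ∧
        ∃ 𝒟₀, ψ 𝒟₀ ≠ 0 ∧ (∃ 𝒟, K.Xi P v s v 𝒟) ∧ ∀ 𝒟, K.Xi P v s v 𝒟 → 𝒟.card = 𝒟₀.card) ∧
      VS K v z ∧ RI K v z ∧ (∀ 𝒟, z 𝒟 ≠ 0 → m ≤ (Pb P 𝒟).card ∧
        ∃ 𝒟₀, ψ 𝒟₀ ≠ 0 ∧ 𝒟.card = 𝒟₀.card + 1) ∧
      ∀ 𝒟, K.Valid v 𝒟 → (Pb P 𝒟).card ≤ m → ψ 𝒟 = xi K P v x 𝒟 + bd z 𝒟 := by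
  have step : ∀ A : Finset E, ∃ (w : Finset (Finset E) → ZMod 2) (c : ZMod 2),
      GA K v P A → A.card = m →
      (∀ 𝒟, w 𝒟 ≠ 0 → Flg (K.same v) A Finset.univ 𝒟 ∧ ∃ 𝒟₀, rs K v A ψ 𝒟₀ ≠ 0 ∧
        𝒟.card = 𝒟₀.card + 1) ∧
      (c ≠ 0 → ∃ 𝒟₀, rs K v A ψ 𝒟₀ ≠ 0 ∧
        ∀ 𝒟, FullFlg (K.same v) A Finset.univ 𝒟 → 𝒟.card = 𝒟₀.card) ∧
      ∀ 𝒟, Flg (K.same v) A Finset.univ 𝒟 → rs K v A ψ 𝒟 =
        bd w 𝒟 + (if FullFlg (K.same v) A Finset.univ 𝒟 then c else 0) := by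
    intro A
    by_cases hA : GA K v P A ∧ A.card = m
    · obtain ⟨hA, hm⟩ := hA
      obtain ⟨w, c, h5, h6, h7⟩ := flags' hr hA (rs K v A ψ)
        (fun 𝒟 h => by
          by_contra hf
          exact h (if_neg hf))
        (fun 𝒟 h𝒟 => by
          rw [← bd_rs hA h1 (by rw [hm]; exact h3) h𝒟]
          obtain ⟨g1, -, g3, -⟩ := valid_of_flg hA h𝒟
          exact h4 _ g1 (by rw [g3, hm]))
      exact ⟨w, c, fun _ _ => ⟨h5, h6, h7⟩⟩
    · exact ⟨fun _ => 0, 0, fun g1 g2 => absurd ⟨g1, g2⟩ hA⟩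
  choose w c hwc using step
  have hrs : ∀ A, GA K v P A → ∀ 𝒟, rs K v A ψ 𝒟 ≠ 0 → ψ (insert A 𝒟) ≠ 0 ∧
      (insert A 𝒟).card = 𝒟.card + 1 := by
    intro A hA 𝒟 h
    unfold rs at h
    split_ifs at h with hf
    · refine ⟨h, Finset.card_insert_of_notMem (valid_of_flg hA hf).2.2.2⟩
    · exact absurd rfl h
  set φ : Finset (Finset E) → ZMod 2 := fun 𝒟 => if 𝒟 ≠ ∅ ∧ (Pb P 𝒟).card = m then
    w (Pb P 𝒟) (𝒟.erase (Pb P 𝒟)) else 0 with hφ
  set z := extN K P v φ with hz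
  set x : (E → Bool) → ZMod 2 := fun s => if (∀ p q, K.same v p q → s p = s q) ∧
    s P = false ∧ (SS s).card = m then (if SS s = Finset.univ then ψ ∅ else c (SS s)) else 0 with hx
  have zVS : VS K v z := extN_VS P v φ
  have zRI : RI K v z := extN_RI P v φ
  -- the values of `z`
  have hzne : ∀ 𝒟, z 𝒟 ≠ 0 → K.Valid v 𝒟 ∧ 𝒟 ≠ ∅ ∧ (Pb P 𝒟).card = m ∧
      w (Pb P 𝒟) ((nf P 𝒟).erase (Pb P 𝒟)) ≠ 0 := by
    intro 𝒟 h
    have hv := zVS 𝒟 h
    rw [hz, extN_valid hv] at h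
    simp only [hφ] at h
    rw [nf_Pb hv] at h
    split_ifs at h with h5
    · refine ⟨hv, fun h6 => h5.1 ?_, h5.2, h⟩
      have := nf_card hv P
      rw [h6, Finset.card_empty, Finset.card_eq_zero] at this
      rw [h6]; exact this
    · exact absurd rfl h
  have hGA : ∀ 𝒟, K.Valid v 𝒟 → 𝒟 ≠ ∅ → GA K v P (Pb P 𝒟) ∧
      insert (Pb P 𝒟) ((nf P 𝒟).erase (Pb P 𝒟)) = nf P 𝒟 ∧
      Flg (K.same v) (Pb P 𝒟) Finset.univ ((nf P 𝒟).erase (Pb P 𝒟)) := by
    intro 𝒟 hv hne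
    have h5 : nf P 𝒟 ≠ ∅ := by
      intro h6
      have := nf_card hv P
      rw [h6, Finset.card_empty] at this
      exact hne (Finset.card_eq_zero.1 this.symm)
    have := flg_of_valid (nf_valid hv P) (nf_nrm hv P) h5
    rwa [nf_Pb hv] at this
  have hzm : ∀ 𝒟, z 𝒟 ≠ 0 → m ≤ (Pb P 𝒟).card := fun 𝒟 h => (hzne 𝒟 h).2.2.1.ge
  refine ⟨x, z, ?_, zVS, zRI, ?_, ?_⟩
  · intro s hs
    simp only [hx] at hs
    split_ifs at hs with h5 h6
    · obtain ⟨g1, g2, g3⟩ := h5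
      refine ⟨g1, g2, g3, ∅, hs, ⟨∅, (Xi_empty P v s).2 ?_⟩, fun 𝒟 h𝒟 => ?_⟩
      · funext p
        rw [← mem_SS, h6]; exact Finset.mem_univ _
      · have := Xi_SS h𝒟
        rw [h6] at this
        rw [Pb_univ ((Xi_iff P v s 𝒟).1 h𝒟).1 this.symm]
    · obtain ⟨g1, g2, g3⟩ := h5
      have hA : GA K v P (SS s) := ⟨mem_SS.2 g2, h6, fun p q hpq => by
        rw [mem_SS, mem_SS, g1 p q hpq]⟩
      obtain ⟨-, h7, -⟩ := hwc (SS s) hA g3
      obtain ⟨𝒟₀, h8, h9⟩ := h7 hs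
      obtain ⟨h10, h11⟩ := hrs _ hA _ h8
      refine ⟨g1, g2, g3, insert (SS s) 𝒟₀, h10, ?_, fun 𝒟 h𝒟 => ?_⟩
      · obtain ⟨𝒟', h𝒟'⟩ := exists_full hr hA
        exact ⟨insert (SS s) 𝒟', (Xi_flg hA h𝒟'.1 s).2 ⟨s_eq s, h𝒟'⟩⟩
      · have hv := ((Xi_iff P v s 𝒟).1 h𝒟).1
        have hPb := Xi_SS h𝒟
        have hne : 𝒟 ≠ ∅ := by
          rintro rfl
          rw [Pb_empty] at hPb
          exact h6 hPb
        obtain ⟨k1, k2, k3⟩ := hGA 𝒟 hv hne
        rw [← hPb] at k1 k2 k3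
        have h𝒟n : K.Xi P v s v (nf P 𝒟) := by
          rcases (nf_cases hv P).2 with e | ⟨D, hD, e⟩
          · rw [e]; exact h𝒟
          · rw [e, Xi_iff]
            simp only [pe_rho hv hD]
            exact ⟨R1.valid_rho hv hD, ((Xi_iff P v s 𝒟).1 h𝒟).2⟩
        rw [← k2, Xi_flg hA k3] at h𝒟n
        have k4 := h9 _ h𝒟n.2
        rw [← nf_card hv P, ← k2, Finset.card_insert_of_notMem (Finset.notMem_erase _ _), k4, h11]
    · exact absurd rfl hs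
  · intro 𝒟 h
    refine ⟨hzm 𝒟 h, ?_⟩
    obtain ⟨k1, k2, k3, k4⟩ := hzne 𝒟 h
    obtain ⟨j1, j2, j3⟩ := hGA 𝒟 k1 k2
    obtain ⟨h5, -, -⟩ := hwc (Pb P 𝒟) j1 k3
    obtain ⟨-, 𝒟₀, h6, h7⟩ := h5 _ k4
    obtain ⟨h8, h9⟩ := hrs _ j1 _ h6
    refine ⟨insert (Pb P 𝒟) 𝒟₀, h8, ?_⟩
    rw [← nf_card k1 P, ← j2, Finset.card_insert_of_notMem (Finset.notMem_erase _ _), h7, h9]
  · -- the identity; first for normal words
    have hxm : ∀ s, x s ≠ 0 → m ≤ (SS s).card := by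
      intro s hs
      simp only [hx] at hs
      split_ifs at hs with h5 h6
      · exact h5.2.2.ge
      · exact h5.2.2.ge
      · exact absurd rfl hs
    have key : ∀ 𝒟, K.Valid v 𝒟 → Nrm P 𝒟 → (Pb P 𝒟).card ≤ m →
        ψ 𝒟 = xi K P v x 𝒟 + bd z 𝒟 := by
      intro 𝒟 hv hn hm
      rcases lt_or_eq_of_le hm with hlt | heq
      · have e1 : ψ 𝒟 = 0 := by
          by_contra h; have := h3 𝒟 h; omega
        have e2 : xi K P v x 𝒟 = 0 := xi_lt hxm hlt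
        have e3 : bd z 𝒟 = 0 := by
          unfold bd
          refine Finset.sum_eq_zero (fun D _ => ?_)
          by_contra h
          have h5 := hzm _ h
          have h6 := Finset.card_le_card (Pb_insert P D 𝒟)
          omega
        rw [e1, e2, e3, add_zero]
      · by_cases hne : 𝒟 = ∅
        · subst hne
          rw [xi_empty]
          have e3 : bd z ∅ = 0 := by
            unfold bd
            refine Finset.sum_eq_zero (fun D _ => ?_)
            by_contra h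
            obtain ⟨k1, k2, k3, -⟩ := hzne _ h
            have h6 := Pb_lt k1 (P := P) k2
            rw [Pb_empty, Finset.card_univ] at heq
            omega
          rw [e3, add_zero]
          simp only [hx]
          have e4 : SS (fun _ : E => false) = Finset.univ := by
            ext p; simp [mem_SS]
          rw [if_pos, if_pos e4]
          refine ⟨fun _ _ _ => trivial, trivial, ?_⟩
          rw [e4]; rw [Pb_empty] at heq; exact heq
        · obtain ⟨j1, j2, j3⟩ := flg_of_valid hv hn hne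
          set A := Pb P 𝒟 with hAdef
          set 𝒟' := 𝒟.erase A with h𝒟'
          obtain ⟨-, -, h7⟩ := hwc A j1 heq
          have e1 : ψ 𝒟 = rs K v A ψ 𝒟' := by
            unfold rs; rw [if_pos j3, j2]
          have e2 : bd z 𝒟 = bd (w A) 𝒟' := by
            conv_lhs => rw [← j2]
            rw [bd_rs j1 zVS (by rw [heq]; exact hzm) j3]
            unfold bd
            refine Finset.sum_congr rfl (fun D hD => ?_)
            unfold rs
            split_ifs with hf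
            · obtain ⟨g1, g2, g3, g4⟩ := valid_of_flg j1 hf
              rw [hz, extN_valid g1, nf_of_nrm g2]
              simp only [hφ]
              rw [g3, if_pos ⟨Finset.insert_ne_empty _ _, heq⟩, Finset.erase_insert g4]
            · by_contra h
              exact hf ((hwc A j1 heq).1 _ (Ne.symm h)).1
          have e3 : xi K P v x 𝒟 = if FullFlg (K.same v) A Finset.univ 𝒟' then c A else 0 := by
            conv_lhs => rw [← j2]
            rw [xi_flg j1 j3]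
            split_ifs with hf
            · simp only [hx]
              have e4 : SS (fun x => !decide (x ∈ A)) = A := by
                ext p; simp [mem_SS]
              rw [if_pos, e4, if_neg j1.top]
              refine ⟨fun p q hpq => ?_, ?_, ?_⟩
              · have := j1.sat p q hpq
                simp [this]
              · simp [j1.mem]
              · rw [e4]; exact heq
            · rfl
          rw [e1, e2, e3, h7 𝒟' j3, add_comm]
    intro 𝒟 hv hm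
    have h5 := key (nf P 𝒟) (nf_valid hv P) (nf_nrm hv P) (by rw [nf_Pb hv]; exact hm)
    rw [RI_nf h2 hv, RI_nf (xi_RI P v x) hv, RI_nf (bd_RI zVS zRI) hv] at h5
    exact h5

theorem xi_add (P : E) (v : Finset X) (x x' : (E → Bool) → ZMod 2) (𝒟 : Finset (Finset E)) :
    xi K P v (fun s => x s + x' s) 𝒟 = xi K P v x 𝒟 + xi K P v x' 𝒟 := by
  classical
  unfold xi
  rw [← Finset.sum_add_distrib]
  refine Finset.sum_congr rfl (fun s _ => ?_)
  split_ifs <;> simp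

theorem VS_add {v : Finset X} {y y' : Finset (Finset E) → ZMod 2} (h : VS K v y)
    (h' : VS K v y') : VS K v (fun 𝒟 => y 𝒟 + y' 𝒟) := by
  intro 𝒟 hne
  by_cases h0 : y 𝒟 = 0
  · exact h' 𝒟 (fun h1 => hne (by simp only; rw [h0, h1, add_zero]))
  · exact h 𝒟 h0

theorem RI_add {v : Finset X} {y y' : Finset (Finset E) → ZMod 2} (h : RI K v y)
    (h' : RI K v y') : RI K v (fun 𝒟 => y 𝒟 + y' 𝒟) := by
  intro 𝒟 D hv hD
  simp only [h 𝒟 D hv hD, h' 𝒟 D hv hD]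

theorem add_ne {α : Type} {f g : α → ZMod 2} {p : α → Prop} (hf : ∀ a, f a ≠ 0 → p a)
    (hg : ∀ a, g a ≠ 0 → p a) : ∀ a, f a + g a ≠ 0 → p a := by
  intro a h
  by_cases h0 : f a = 0
  · exact hg a (fun h1 => h (by rw [h0, h1, add_zero]))
  · exact hf a h0

/-- surjectivity, by descending induction on the size of the block of `P` -/
theorem surj_aux {v : Finset X} (hr : Equivalence (K.same v)) (P : E) (k : ℕ) :
    ∀ (n m : ℕ), m + n = Fintype.card E + 1 → ∀ ψ : Finset (Finset E) → ZMod 2,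
      VS K v ψ → RI K v ψ → (∀ 𝒟, ψ 𝒟 ≠ 0 → m ≤ (Pb P 𝒟).card) → (∀ 𝒟, ψ 𝒟 ≠ 0 → 𝒟.card = k) →
      (∀ 𝒟, K.Valid v 𝒟 → bd ψ 𝒟 = 0) →
      ∃ (x : (E → Bool) → ZMod 2) (z : Finset (Finset E) → ZMod 2),
        (∀ s, x s ≠ 0 → (∀ p q, K.same v p q → s p = s q) ∧ s P = false ∧
          ∃ 𝒟, K.Xi P v s v 𝒟 ∧ 𝒟.card = k) ∧
        VS K v z ∧ (∀ 𝒟, z 𝒟 ≠ 0 → 𝒟.card = k + 1) ∧ RI K v z ∧
        ∀ 𝒟, K.Valid v 𝒟 → ψ 𝒟 = xi K P v x 𝒟 + bd z 𝒟 := by
  intro n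
  induction n with
  | zero =>
    intro m hm ψ _ _ h3 _ _
    refine ⟨fun _ => 0, fun _ => 0, fun s h => absurd rfl h, fun 𝒟 h => absurd rfl h,
      fun 𝒟 h => absurd rfl h, fun 𝒟 D _ _ => rfl, fun 𝒟 _ => ?_⟩
    have e1 : ψ 𝒟 = 0 := by
      by_contra h
      have h5 := h3 𝒟 h
      have h6 := Finset.card_le_univ (Pb P 𝒟)
      omega
    rw [e1]
    unfold xi bd
    simp
  | succ n ih =>
    intro m hm ψ h1 h2 h3 h4 h5
    obtain ⟨x, z, g1, g2, g3, g4, g5⟩ := red hr P m ψ h1 h2 h3 (fun 𝒟 hv _ => h5 𝒟 hv)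
    have hzk : ∀ 𝒟, z 𝒟 ≠ 0 → 𝒟.card = k + 1 := by
      intro 𝒟 h
      obtain ⟨-, 𝒟₀, h6, h7⟩ := g4 𝒟 h
      rw [h7, h4 𝒟₀ h6]
    have hxk : ∀ s, x s ≠ 0 → ∀ 𝒟, K.Xi P v s v 𝒟 → 𝒟.card = k := by
      intro s hs 𝒟 h𝒟
      obtain ⟨-, -, -, 𝒟₀, h6, -, h7⟩ := g1 s hs
      rw [h7 𝒟 h𝒟, h4 𝒟₀ h6]
    have hVS : VS K v (fun 𝒟 => ψ 𝒟 + (xi K P v x 𝒟 + bd z 𝒟)) :=
      VS_add h1 (VS_add (xi_VS P v x) (bd_VS g2))
    obtain ⟨x', z', k1, k2, k3, k4, k5⟩ := ih (m + 1) (by omega)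
      (fun 𝒟 => ψ 𝒟 + (xi K P v x 𝒟 + bd z 𝒟)) hVS
      (RI_add h2 (RI_add (xi_RI P v x) (bd_RI g2 g3)))
      (fun 𝒟 h => by
        by_contra hcon
        apply h
        rw [← g5 𝒟 (hVS 𝒟 h) (by omega)]
        exact z2_add_self _)
      (add_ne h4 (add_ne (fun 𝒟 h => by
        classical
        unfold xi at h
        obtain ⟨s, -, hs⟩ := Finset.exists_ne_zero_of_sum_ne_zero h
        split_ifs at hs with h6
        · exact hxk s hs 𝒟 h6
        · exact absurd rfl hs) (fun 𝒟 h => by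
        unfold bd at h
        obtain ⟨D, hD, hs⟩ := Finset.exists_ne_zero_of_sum_ne_zero h
        simp only [Finset.mem_filter, Finset.mem_univ, true_and] at hD
        have := hzk _ hs
        rw [Finset.card_insert_of_notMem hD] at this
        omega)))
      (fun 𝒟 hv => by
        rw [bd_add, bd_add, h5 𝒟 hv, xi_cycle, bd_bd]; simp)
    refine ⟨fun s => x s + x' s, fun 𝒟 => z 𝒟 + z' 𝒟, add_ne (fun s hs => ?_) k1,
      VS_add g2 k2, add_ne hzk k3, RI_add g3 k4, fun 𝒟 hv => ?_⟩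
    · obtain ⟨j1, j2, -, 𝒟₀, j4, ⟨𝒟, j5⟩, j6⟩ := g1 s hs
      exact ⟨j1, j2, 𝒟, j5, hxk s hs 𝒟 j5⟩
    · rw [xi_add, bd_add]
      have h6 := k5 𝒟 hv
      have h7 : ψ 𝒟 = (ψ 𝒟 + (xi K P v x 𝒟 + bd z 𝒟)) + (xi K P v x 𝒟 + bd z 𝒟) := by
        rw [add_assoc, z2_add_self, add_zero]
      rw [h7, h6]
      ring

/-- injectivity, by descending induction on the size of the block of `P` -/
theorem inj_aux {v : Finset X} (hr : Equivalence (K.same v)) (P : E) :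
    ∀ (n m : ℕ), m + n = Fintype.card E + 1 → ∀ (x : (E → Bool) → ZMod 2)
      (z : Finset (Finset E) → ZMod 2),
      (∀ s, x s ≠ 0 → (∀ p q, K.same v p q → s p = s q) ∧ s P = false ∧ m ≤ (SS s).card) →
      VS K v z → RI K v z → (∀ 𝒟, z 𝒟 ≠ 0 → m ≤ (Pb P 𝒟).card) →
      (∀ 𝒟, K.Valid v 𝒟 → xi K P v x 𝒟 = bd z 𝒟) → ∀ s, x s = 0 := by
  intro n
  induction n with
  | zero =>
    intro m hm x z h1 _ _ _ _ s
    by_contra h
    have h5 := (h1 s h).2.2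
    have h6 := Finset.card_le_univ (SS s)
    omega
  | succ n ih =>
    intro m hm x z h1 h2 h3 h4 h5
    have hxm : ∀ s, x s ≠ 0 → m ≤ (SS s).card := fun s hs => (h1 s hs).2.2
    -- the coefficients of level `m` vanish
    have h6 : ∀ s, x s ≠ 0 → m + 1 ≤ (SS s).card := by
      intro s hs
      by_contra hcon
      have hm' : (SS s).card = m := by have := hxm s hs; omega
      obtain ⟨j1, j2, -⟩ := h1 s hs
      by_cases hu : SS s = Finset.univ
      · have hs' : s = fun _ => false := by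
          funext p
          rw [← mem_SS, hu]; exact Finset.mem_univ _
        have h7 := h5 ∅ ((Xi_iff P v s ∅).1 ((Xi_empty P v s).2 hs')).1
        rw [xi_empty] at h7
        apply hs
        rw [hs', h7]
        unfold bd
        refine Finset.sum_eq_zero (fun D _ => ?_)
        by_contra h
        have h8 := h4 _ h
        have h9 := Pb_lt (h2 _ h) (P := P) (Finset.insert_ne_empty _ _)
        rw [hu, Finset.card_univ] at hm'
        omega
      · have hA : GA K v P (SS s) := ⟨mem_SS.2 j2, hu, fun p q hpq => by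
          rw [mem_SS, mem_SS, j1 p q hpq]⟩
        obtain ⟨𝒟', h𝒟'⟩ := exists_full hr hA
        obtain ⟨g1, -, -, -⟩ := valid_of_flg hA h𝒟'.1
        have h7 := h5 _ g1
        rw [xi_flg hA h𝒟'.1, if_pos h𝒟', ← s_eq, bd_rs hA h2 (by rw [hm']; exact h4) h𝒟'.1] at h7
        apply hs
        rw [h7]
        unfold bd
        refine Finset.sum_eq_zero (fun D hD => ?_)
        simp only [Finset.mem_filter, Finset.mem_univ, true_and] at hD
        unfold rs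
        rw [if_neg (full_no_ref hA h𝒟' hD)]
    obtain ⟨x', z', g1, g2, g3, g4, g5⟩ := red hr P m z h2 h3 h4 (fun 𝒟 hv hle => by
      rw [← h5 𝒟 hv]
      exact xi_lt h6 (by omega))
    have hVS : VS K v (fun 𝒟 => z 𝒟 + (xi K P v x' 𝒟 + bd z' 𝒟)) :=
      VS_add h2 (VS_add (xi_VS P v x') (bd_VS g2))
    exact ih (m + 1) (by omega) x (fun 𝒟 => z 𝒟 + (xi K P v x' 𝒟 + bd z' 𝒟))
      (fun s hs => ⟨(h1 s hs).1, (h1 s hs).2.1, h6 s hs⟩) hVS
      (RI_add h3 (RI_add (xi_RI P v x') (bd_RI g2 g3)))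
      (fun 𝒟 h => by
        by_contra hcon
        apply h
        rw [← g5 𝒟 (hVS 𝒟 h) (by omega)]
        exact z2_add_self _)
      (fun 𝒟 hv => by
        rw [bd_add, bd_add, xi_cycle, bd_bd, h5 𝒟 hv]; simp)

open Classical in
theorem tor_surj (hK : K.IsCore) (P : E) (v : Finset X) (k : ℕ)
    (y : Finset (Finset E) → ZMod 2)
    (hy : ∀ 𝒟, y 𝒟 ≠ 0 → K.Valid v 𝒟 ∧ 𝒟.card = k)
    (hr : ∀ 𝒟 D, K.Valid v 𝒟 → D ∈ 𝒟 → y (rho D 𝒟) = y 𝒟)
    (hc : ∀ 𝒟, K.Valid v 𝒟 →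
      ∑ D ∈ Finset.univ.filter (fun D => D ∉ 𝒟), y (insert D 𝒟) = 0) :
    ∃ (x : (E → Bool) → ZMod 2) (z : Finset (Finset E) → ZMod 2),
      (∀ s, x s ≠ 0 → (∀ p q, K.same v p q → s p = s q) ∧ s P = false ∧
        ∃ 𝒟, K.Xi P v s v 𝒟 ∧ 𝒟.card = k) ∧
      (∀ 𝒟, z 𝒟 ≠ 0 → K.Valid v 𝒟 ∧ 𝒟.card = k + 1) ∧
      (∀ 𝒟 D, K.Valid v 𝒟 → D ∈ 𝒟 → z (rho D 𝒟) = z 𝒟) ∧
      ∀ 𝒟, K.Valid v 𝒟 → y 𝒟 = (∑ s : E → Bool, if K.Xi P v s v 𝒟 then x s else 0) +
        ∑ D ∈ Finset.univ.filter (fun D => D ∉ 𝒟), z (insert D 𝒟) := by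
  obtain ⟨x, z, h1, h2, h3, h4, h5⟩ := surj_aux (hK.eqv v) P k (Fintype.card E + 1) 0 (by omega) y
    (fun 𝒟 h => (hy 𝒟 h).1) hr (fun _ _ => Nat.zero_le _) (fun 𝒟 h => (hy 𝒟 h).2) hc
  exact ⟨x, z, h1, fun 𝒟 h => ⟨h2 𝒟 h, h3 𝒟 h⟩, h4, h5⟩

open Classical in
theorem tor_inj (hK : K.IsCore) (P : E) (v : Finset X)
    (x : (E → Bool) → ZMod 2) (z : Finset (Finset E) → ZMod 2)
    (hx : ∀ s, x s ≠ 0 → (∀ p q, K.same v p q → s p = s q) ∧ s P = false)
    (hz : ∀ 𝒟, z 𝒟 ≠ 0 → K.Valid v 𝒟)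
    (hr : ∀ 𝒟 D, K.Valid v 𝒟 → D ∈ 𝒟 → z (rho D 𝒟) = z 𝒟)
    (h : ∀ 𝒟, K.Valid v 𝒟 → (∑ s : E → Bool, if K.Xi P v s v 𝒟 then x s else 0) =
        ∑ D ∈ Finset.univ.filter (fun D => D ∉ 𝒟), z (insert D 𝒟)) : x = 0 := by
  funext s
  exact inj_aux (hK.eqv v) P (Fintype.card E + 1) 0 (by omega) x z
    (fun s hs => ⟨(hx s hs).1, (hx s hs).2, Nat.zero_le _⟩) hz hr (fun _ _ => Nat.zero_le _) h s

end T1

end Pool.Agent.helper20.Sz
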